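import Pool.Agent.KS6_63.HT3.Base

/-!
# Independently even drawings whose adjacent edge pairs lie in discs, on every genus at least three

See `Pool/Agent/KS6_63/HT/Defs.lean` for the definitions of a map on a closed oriented surface, of
its Euler characteristic, and of a drawing (recorded by its planarisation) and an embedding;
`Pool/Agent/KS6_63/HT2/Disc.lean` for `AdjInDisc` (the arcs of any two adjacent edges lie in a
closed disc); and `Pool/Agent/KS6_63/HT3/JoinP.lean` for `crossings`, `IndepZeroTwo`, `AdjOnce`.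
-/

set_option autoImplicit false

namespace Pool.Agent.Results.MP_a2800b_co.EveryGenus

open Pool.Agent.KS6_63.HT Pool.Agent.KS6_63.HT2 Pool.Agent.KS6_63.HT3

theorem exists_good (k r : ℕ) : ∃ (V : Type) (_ : Fintype V) (G : SimpleGraph V),
    Good G (2 - 2 * (3 * ((k : ℤ) + 1) + r)) (2 - 2 * (4 * ((k : ℤ) + 1) + r)) := by
  induction r with
  | zero =>
    induction k with
    | zero =>
      refine ⟨Vt 13 11 4, inferInstance, gridGraph 11 W14.w, ?_⟩
      convert base_good using 1 <;> norm_num
    | succ k ih =>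
      obtain ⟨V, hV, G, hG⟩ := ih
      obtain ⟨a, b, h⟩ := hG.join base_good
      refine ⟨V ⊕ Vt 13 11 4, inferInstance, joinGraph G (gridGraph 11 W14.w) a b, ?_⟩
      convert h using 1 <;> push_cast <;> ring
  | succ r ih =>
    obtain ⟨V, hV, G, hG⟩ := ih
    obtain ⟨a, b, h⟩ := hG.join k7_good
    refine ⟨V ⊕ Fin 7, inferInstance, joinGraph G ⊤ a b, ?_⟩
    convert h using 1 <;> push_cast <;> ring

/-- For every `g ≥ 3` there is a finite connected graph `G` that has a drawing on the closed
orientable surface of genus `g` (the planarisation of the drawing is a cellular map of Euler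
characteristic `2 - 2 g`) in which any two edges without a common end cross either not at all or
exactly twice, any two edges with a common end cross at most once and their arcs are contained in a
closed disc of the surface, while `G` has no embedding in any closed orientable surface of genus
less than `g + ⌊g / 3⌋`. In particular `G` has no embedding in the surface of genus `g`. -/
theorem result (g : ℕ) (hg : 3 ≤ g) :
    ∃ (V : Type) (_ : Fintype V) (G : SimpleGraph V), G.Connected ∧
      (∃ 𝒟 : Drawing G, 𝒟.toSurfaceMap.euler = 2 - 2 * g ∧ IndepZeroTwo 𝒟 ∧ AdjOnce 𝒟 ∧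
        AdjInDisc 𝒟) ∧
      ∀ (h : ℕ) (ℰ : Drawing G), ℰ.IsEmbedding → ℰ.OnSurface h → g + g / 3 ≤ h := by
  obtain ⟨V, hV, G, hG⟩ := exists_good (g / 3 - 1) (g % 3)
  have h1 : (((g / 3 - 1 : ℕ) : ℤ)) + 1 = ((g / 3 : ℕ) : ℤ) := by
    have : 1 ≤ g / 3 := by omega
    push_cast [this]
    ring
  rw [h1] at hG
  refine ⟨V, hV, G, hG.conn, ?_, ?_⟩
  · obtain ⟨𝒟, x, _, h2, h3, h4, h5⟩ := hG.draw
    refine ⟨𝒟, ?_, h3, h4, h5.adjInDisc⟩
    rw [h2]
    have := Nat.div_add_mod g 3
    omega
  · intro h ℰ hE hs
    have h2 := hG.low ℰ hE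
    have h3 : 2 - 2 * (h : ℤ) ≤ ℰ.toSurfaceMap.euler := hs
    have := Nat.div_add_mod g 3
    omega

end Pool.Agent.Results.MP_a2800b_co.EveryGenus
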